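import Mathlib

set_option autoImplicit false

/-!
# Fréchet algebras without non-zero injective modules

* The non-unital Fréchet algebra `A₀` of all formal power series in one variable without constant
  term (product topology) has no non-zero injective Fréchet module.
* The unital Fréchet algebra `ℂ⟦z⟧` of all formal power series has no non-zero injective unital
  Fréchet module.

Proof. Let `X` be an injective module and `x₀ ∈ X`. The formula
`a • (x, u) = (a • x + u ((a - a(0)) / z) • x₀, a(0) u)` makes `X × ℂ` a Fréchet module which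
contains `X`, and `z • (0, 1) = (x₀, 0)`. A module retraction of `X × ℂ` onto `X` therefore gives
`t ∈ X` with `z • t = x₀`. So `X = z^k • X` for all `k`. But by the joint continuity of the action
every neighbourhood of `0` in `X` contains `z^k • X` if `k` is large.
-/

open Topology Filter PowerSeries
open scoped PowerSeries.WithPiTopology

namespace Pool.Agent.Results.MP_5446c4_an.FormalPowerSeries

universe u

/-- `X` is a Fréchet space: a locally convex Hausdorff topological vector space over `ℂ` which is
complete and metrizable (`countable` says that the uniformity of the topological vector space is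
countably generated). -/
class IsFrechet (X : Type u) [AddCommGroup X] [Module ℂ X] [UniformSpace X] : Prop where
  isUniformAddGroup : IsUniformAddGroup X
  continuousSMul : ContinuousSMul ℂ X
  locallyConvex : LocallyConvexSpace ℝ X
  complete : CompleteSpace X
  t2 : T2Space X
  countable : (uniformity X).IsCountablyGenerated

/-- `A` is a Fréchet algebra: a Fréchet space with an associative bilinear multiplication which is
jointly continuous. No unit is assumed. -/
class IsFrechetAlgebra (A : Type u) [NonUnitalRing A] [Module ℂ A] [UniformSpace A] : Prop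
    extends IsFrechet A where
  smul_mul : ∀ (c : ℂ) (a b : A), (c • a) * b = c • (a * b)
  mul_smul : ∀ (c : ℂ) (a b : A), a * (c • b) = c • (a * b)
  continuous_mul : Continuous fun p : A × A => p.1 * p.2

/-- A structure of left module over the algebra `A` on `X` (bilinear and associative) with jointly
continuous action. -/
structure FrechetModule (A X : Type*) [NonUnitalRing A] [Module ℂ A] [UniformSpace A]
    [AddCommGroup X] [Module ℂ X] [UniformSpace X] where
  /-- the action -/
  act : A → X → X
  add_act : ∀ (a b : A) (x : X), act (a + b) x = act a x + act b x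
  smul_act : ∀ (c : ℂ) (a : A) (x : X), act (c • a) x = c • act a x
  act_add : ∀ (a : A) (x y : X), act a (x + y) = act a x + act a y
  act_smul : ∀ (c : ℂ) (a : A) (x : X), act a (c • x) = c • act a x
  mul_act : ∀ (a b : A) (x : X), act (a * b) x = act a (act b x)
  continuous_act : Continuous fun p : A × X => act p.1 p.2

/-- The continuous linear map `φ` is a morphism of modules. -/
def IsMorphism {A X Y : Type*} [NonUnitalRing A] [Module ℂ A] [UniformSpace A]
    [AddCommGroup X] [Module ℂ X] [UniformSpace X] [AddCommGroup Y] [Module ℂ Y] [UniformSpace Y]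
    (mX : FrechetModule A X) (mY : FrechetModule A Y) (φ : X →L[ℂ] Y) : Prop :=
  ∀ (a : A) (x : X), φ (mX.act a x) = mY.act a (φ x)

/-- The Fréchet module `X` is injective: every morphism `φ : X → Y` of Fréchet modules which has a
continuous linear left inverse has a left inverse which is a morphism. -/
def IsInjective {A : Type*} [NonUnitalRing A] [Module ℂ A] [UniformSpace A]
    {X : Type u} [AddCommGroup X] [Module ℂ X] [UniformSpace X] (mX : FrechetModule A X) : Prop :=
  ∀ (Y : Type u) [AddCommGroup Y] [Module ℂ Y] [UniformSpace Y] [IsFrechet Y]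
    (mY : FrechetModule A Y) (φ : X →L[ℂ] Y), IsMorphism mX mY φ →
    (∃ ρ : Y →L[ℂ] X, ∀ x, ρ (φ x) = x) →
    ∃ ψ : Y →L[ℂ] X, IsMorphism mY mX ψ ∧ ∀ x, ψ (φ x) = x

/-- The module `X` over the unital algebra `A` is unital. -/
def FrechetModule.IsUnital {A X : Type*} [Ring A] [Module ℂ A] [UniformSpace A]
    [AddCommGroup X] [Module ℂ X] [UniformSpace X] (mX : FrechetModule A X) : Prop :=
  ∀ x, mX.act 1 x = x

/-- The unital Fréchet module `X` is injective in the category of unital Fréchet modules. -/
def IsInjectiveUnital {A : Type*} [Ring A] [Module ℂ A] [UniformSpace A]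
    {X : Type u} [AddCommGroup X] [Module ℂ X] [UniformSpace X] (mX : FrechetModule A X) : Prop :=
  ∀ (Y : Type u) [AddCommGroup Y] [Module ℂ Y] [UniformSpace Y] [IsFrechet Y]
    (mY : FrechetModule A Y), mY.IsUnital → ∀ φ : X →L[ℂ] Y, IsMorphism mX mY φ →
    (∃ ρ : Y →L[ℂ] X, ∀ x, ρ (φ x) = x) →
    ∃ ψ : Y →L[ℂ] X, IsMorphism mY mX ψ ∧ ∀ x, ψ (φ x) = x

/-- The algebra of the formal power series without constant term. -/
def A₀ : NonUnitalSubalgebra ℂ ℂ⟦X⟧ where
  carrier := {f | constantCoeff f = 0}
  add_mem' := by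
    intro f g hf hg
    change constantCoeff f = 0 at hf
    change constantCoeff g = 0 at hg
    change constantCoeff (f + g) = 0
    rw [map_add, hf, hg, add_zero]
  zero_mem' := by simp
  mul_mem' := by
    intro f g hf hg
    change constantCoeff f = 0 at hf
    change constantCoeff (f * g) = 0
    rw [map_mul, hf, zero_mul]
  smul_mem' := by
    intro c f hf
    change constantCoeff f = 0 at hf
    change constantCoeff (c • f) = 0
    rw [← coeff_zero_eq_constantCoeff_apply] at hf ⊢
    rw [map_smul, hf, smul_zero]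

/-! ### The spaces are Fréchet spaces -/

section Basic

theorem isFrechet_prod (X : Type u) [AddCommGroup X] [Module ℂ X] [UniformSpace X]
    (h : IsFrechet X) : IsFrechet (X × ℂ) := by
  have := h.isUniformAddGroup
  have := h.continuousSMul
  have := h.locallyConvex
  have := h.complete
  have := h.t2
  have := h.countable
  have : (uniformity ℂ).IsCountablyGenerated := inferInstance
  refine ⟨inferInstance, inferInstance, inferInstance, inferInstance, inferInstance, ?_⟩
  rw [uniformity_prod]
  infer_instance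

theorem isFrechet_series : IsFrechet ℂ⟦X⟧ := by
  refine ⟨inferInstance, ?_, ?_, inferInstance, inferInstance, ?_⟩
  · exact inferInstanceAs (ContinuousSMul ℂ ((Unit →₀ ℕ) → ℂ))
  · exact inferInstanceAs (LocallyConvexSpace ℝ ((Unit →₀ ℕ) → ℂ))
  · exact inferInstanceAs ((uniformity ((Unit →₀ ℕ) → ℂ)).IsCountablyGenerated)

theorem isClosed_A₀ : IsClosed ((A₀ : Set ℂ⟦X⟧)) := by
  have : (A₀ : Set ℂ⟦X⟧) = (constantCoeff (R := ℂ)) ⁻¹' {0} := rfl
  rw [this]
  exact isClosed_singleton.preimage (PowerSeries.WithPiTopology.continuous_constantCoeff ℂ)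

theorem isFrechet_submodule {E : Type u} [AddCommGroup E] [Module ℂ E] [UniformSpace E]
    (h : IsFrechet E) (S : Submodule ℂ E) (hS : IsClosed (S : Set E)) : IsFrechet S := by
  have := h.isUniformAddGroup
  have := h.continuousSMul
  have := h.locallyConvex
  have := h.complete
  have := h.t2
  have := h.countable
  refine ⟨⟨?_⟩, ⟨?_⟩, ?_, ?_, inferInstance, ?_⟩
  · exact (uniformContinuous_sub.comp
      ((uniformContinuous_subtype_val.comp uniformContinuous_fst).prodMk
        (uniformContinuous_subtype_val.comp uniformContinuous_snd))).subtype_mk _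
  · exact (continuous_fst.smul (continuous_subtype_val.comp continuous_snd)).subtype_mk _
  · exact Topology.IsInducing.locallyConvexSpace
      (f := (S.subtype).restrictScalars ℝ) Topology.IsInducing.subtypeVal
  · exact hS.completeSpace_coe
  · rw [uniformity_subtype]
    infer_instance

theorem isFrechet_A₀ : IsFrechet A₀ :=
  isFrechet_submodule isFrechet_series A₀.toSubmodule isClosed_A₀

theorem isFrechetAlgebra_series : IsFrechetAlgebra ℂ⟦X⟧ :=
  { isFrechet_series with
    smul_mul := fun c a b => smul_mul_assoc c a b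
    mul_smul := fun c a b => mul_smul_comm c a b
    continuous_mul := continuous_mul }

theorem isFrechetAlgebra_A₀ : IsFrechetAlgebra A₀ :=
  { isFrechet_A₀ with
    smul_mul := fun c a b => smul_mul_assoc c a b
    mul_smul := fun c a b => mul_smul_comm c a b
    continuous_mul := by
      exact ((continuous_subtype_val.comp continuous_fst).mul
        (continuous_subtype_val.comp continuous_snd)).subtype_mk _ }

end Basic

/-! ### The backward shift `f ↦ (f - f(0)) / z` -/

section Shift

/-- the backward shift -/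
noncomputable def sh (f : ℂ⟦X⟧) : ℂ⟦X⟧ := PowerSeries.mk fun n => coeff (n + 1) f

theorem coeff_sh (f : ℂ⟦X⟧) (n : ℕ) : coeff n (sh f) = coeff (n + 1) f := by
  simp [sh]

theorem sh_add (f g : ℂ⟦X⟧) : sh (f + g) = sh f + sh g := by
  ext n; simp [coeff_sh]

theorem sh_smul (c : ℂ) (f : ℂ⟦X⟧) : sh (c • f) = c • sh f := by
  ext n; simp [coeff_sh]

theorem eq_sh (f : ℂ⟦X⟧) : f = PowerSeries.X * sh f + C (constantCoeff f) := by
  ext n
  cases n with
  | zero => simp
  | succ n => simp [coeff_sh, coeff_succ_X_mul]

theorem sh_mul (f g : ℂ⟦X⟧) : sh (f * g) = f * sh g + constantCoeff g • sh f := by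
  have h1 : PowerSeries.X * sh (f * g) = PowerSeries.X * (f * sh g + constantCoeff g • sh f) := by
    have e1 := eq_sh (f * g)
    have e2 := eq_sh f
    have e3 := eq_sh g
    have e4 : PowerSeries.X * sh (f * g) = f * g - C (constantCoeff (f * g)) := by
      rw [eq_sub_iff_add_eq]; exact e1.symm
    rw [e4, map_mul, map_mul]
    have e5 : (constantCoeff g • sh f : ℂ⟦X⟧) = C (constantCoeff g) * sh f :=
      smul_eq_C_mul _ _
    rw [e5]
    linear_combination f * e3 + C (constantCoeff g) * e2
  exact mul_left_cancel₀ PowerSeries.X_ne_zero h1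

theorem continuous_sh : Continuous sh := by
  refine continuous_pi fun d => ?_
  have : (fun f : ℂ⟦X⟧ => sh f d) = fun f => coeff (d () + 1) f := by
    funext f
    have : d = Finsupp.single () (d ()) := by ext; simp
    conv_lhs => rw [this]
    exact coeff_sh f _
  rw [this]
  exact PowerSeries.WithPiTopology.continuous_coeff ℂ _

end Shift

/-! ### The extension `X × ℂ` -/

section Extension

variable {V : Type u} [AddCommGroup V] [Module ℂ V] [UniformSpace V]

/-- The module structure on `V × ℂ` with `z • (0, 1) = (x₀, 0)`. -/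
noncomputable def ext (hV : IsFrechet V) (m : FrechetModule ℂ⟦X⟧ V) (x₀ : V) :
    FrechetModule ℂ⟦X⟧ (V × ℂ) where
  act a p := (m.act a p.1 + p.2 • m.act (sh a) x₀, constantCoeff a * p.2)
  add_act a b p := by
    ext
    · simp only [m.add_act, sh_add, smul_add, Prod.fst_add]
      abel
    · simp only [map_add, Prod.snd_add]
      ring
  smul_act c a p := by
    ext
    · simp only [m.smul_act, sh_smul, smul_add, Prod.smul_fst]
      rw [smul_comm]
    · have : constantCoeff (c • a) = c * constantCoeff a := by
        rw [← coeff_zero_eq_constantCoeff_apply, ← coeff_zero_eq_constantCoeff_apply, map_smul,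
          smul_eq_mul]
      simp only [this, Prod.smul_snd, smul_eq_mul]
      ring
  act_add a p q := by
    ext
    · simp only [m.act_add, Prod.fst_add, Prod.snd_add, add_smul]
      abel
    · simp only [Prod.snd_add]
      ring
  act_smul c a p := by
    ext
    · simp only [m.act_smul, Prod.smul_fst, Prod.smul_snd, smul_add, smul_smul, smul_eq_mul]
    · simp only [Prod.smul_snd, smul_eq_mul]
      ring
  mul_act a b p := by
    ext
    · simp only [m.mul_act, m.act_add, m.act_smul, sh_mul, m.add_act, m.smul_act, smul_add,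
        smul_smul]
      rw [mul_comm (constantCoeff b) p.2]
      abel
    · simp only [map_mul]
      ring
  continuous_act := by
    have := hV.isUniformAddGroup
    have := hV.continuousSMul
    have h1 : Continuous fun p : ℂ⟦X⟧ × (V × ℂ) => m.act p.1 p.2.1 :=
      m.continuous_act.comp (continuous_fst.prodMk (continuous_fst.comp continuous_snd))
    have h2 : Continuous fun p : ℂ⟦X⟧ × (V × ℂ) => m.act (sh p.1) x₀ :=
      m.continuous_act.comp ((continuous_sh.comp continuous_fst).prodMk continuous_const)
    exact (h1.add ((continuous_snd.comp continuous_snd).smul h2)).prodMk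
      (((PowerSeries.WithPiTopology.continuous_constantCoeff ℂ).comp continuous_fst).mul
        (continuous_snd.comp continuous_snd))

theorem act_zero (m : FrechetModule ℂ⟦X⟧ V) (a : ℂ⟦X⟧) : m.act a 0 = 0 := by
  have := m.act_smul 0 a 0
  simpa using this

theorem zero_act (m : FrechetModule ℂ⟦X⟧ V) (x : V) : m.act 0 x = 0 := by
  have := m.smul_act 0 0 x
  simpa using this

theorem sh_one : sh 1 = 0 := by
  ext n
  rw [coeff_sh, coeff_one]
  simp

theorem sh_X : sh PowerSeries.X = 1 := by
  ext n
  rw [coeff_sh, coeff_one, coeff_X]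
  simp

theorem exists_div (hV : IsFrechet V) (m : FrechetModule ℂ⟦X⟧ V) (hu : m.IsUnital)
    (hinj : IsInjectiveUnital m) (x₀ : V) : ∃ t, m.act PowerSeries.X t = x₀ := by
  have hY := isFrechet_prod V hV
  have := hV.isUniformAddGroup
  have hun : (ext hV m x₀).IsUnital := by
    rintro ⟨x, u⟩
    ext
    · simp [ext, hu x, sh_one, zero_act]
    · simp [ext]
  obtain ⟨ψ, h1, h2⟩ := hinj (V × ℂ) (ext hV m x₀) hun (ContinuousLinearMap.inl ℂ V ℂ)
    (fun a x => by ext <;> simp [ext]) ⟨ContinuousLinearMap.fst ℂ V ℂ, fun x => rfl⟩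
  refine ⟨ψ (0, 1), ?_⟩
  rw [← h1]
  have : (ext hV m x₀).act PowerSeries.X (0, 1) = ContinuousLinearMap.inl ℂ V ℂ x₀ := by
    ext
    · simp [ext, act_zero, sh_X, hu x₀]
    · simp [ext]
  rw [this, h2]

theorem exists_div_pow (hV : IsFrechet V) (m : FrechetModule ℂ⟦X⟧ V) (hu : m.IsUnital)
    (hinj : IsInjectiveUnital m) (k : ℕ) (x₀ : V) : ∃ t, m.act (PowerSeries.X ^ k) t = x₀ := by
  induction k generalizing x₀ with
  | zero => exact ⟨x₀, by rw [pow_zero]; exact hu x₀⟩
  | succ k ih =>
    obtain ⟨t, ht⟩ := ih x₀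
    obtain ⟨s, hs⟩ := exists_div hV m hu hinj t
    exact ⟨s, by rw [pow_succ, m.mul_act, hs, ht]⟩

/-- Every neighbourhood of `0` contains all power series of large order. -/
theorem nhds_order {W : Set ℂ⟦X⟧} (hW : W ∈ 𝓝 (0 : ℂ⟦X⟧)) :
    ∃ N : ℕ, ∀ a : ℂ⟦X⟧, (∀ i < N, coeff i a = 0) → a ∈ W := by
  have key : ∀ W' : Set ((Unit →₀ ℕ) → ℂ), W' ∈ 𝓝 (0 : (Unit →₀ ℕ) → ℂ) →
      ∃ I : Set (Unit →₀ ℕ), I.Finite ∧ ∃ t : (Unit →₀ ℕ) → Set ℂ,
        (∀ i, t i ∈ 𝓝 (0 : ℂ)) ∧ I.pi t ⊆ W' := by
    intro W' hW'
    rw [nhds_pi, Filter.mem_pi] at hW'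
    exact hW'
  obtain ⟨I, hI, t, ht, hsub⟩ := key W hW
  obtain ⟨N, hN⟩ : ∃ N : ℕ, ∀ d ∈ I, d () < N := by
    obtain ⟨M, hM⟩ := (hI.image fun d : Unit →₀ ℕ => d ()).bddAbove
    exact ⟨M + 1, fun d hd => Nat.lt_succ_of_le (hM ⟨d, hd, rfl⟩)⟩
  refine ⟨N, fun a ha => hsub ?_⟩
  intro d hd
  have e : a d = 0 := by
    have h1 := ha (d ()) (hN d hd)
    have h2 : d = Finsupp.single () (d ()) := by ext; simp
    rw [h2]
    exact h1
  rw [e]
  exact mem_of_mem_nhds (ht d)

theorem eq_zero (hV : IsFrechet V) (m : FrechetModule ℂ⟦X⟧ V) (x₀ : V)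
    (h : ∀ k : ℕ, ∃ t, m.act (PowerSeries.X ^ k) t = x₀) : x₀ = 0 := by
  have := hV.isUniformAddGroup
  have := hV.continuousSMul
  have := hV.t2
  by_contra hne
  have hU : {x₀}ᶜ ∈ 𝓝 (0 : V) := isOpen_compl_singleton.mem_nhds (by simpa using Ne.symm hne)
  have hc := m.continuous_act.continuousAt (x := ((0 : ℂ⟦X⟧), (0 : V)))
  have h0 : m.act (0 : ℂ⟦X⟧) 0 = 0 := zero_act m 0
  have hpre : (fun p : ℂ⟦X⟧ × V => m.act p.1 p.2) ⁻¹' {x₀}ᶜ ∈ 𝓝 ((0 : ℂ⟦X⟧), (0 : V)) := by
    apply hc
    simpa [h0] using hU
  rw [nhds_prod_eq, Filter.mem_prod_iff] at hpre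
  obtain ⟨W, hW, U, hU', hsub⟩ := hpre
  obtain ⟨N, hN⟩ := nhds_order hW
  obtain ⟨t, ht⟩ := h N
  -- absorb `t`
  obtain ⟨c, hc0, hct⟩ : ∃ c : ℂ, c ≠ 0 ∧ c • t ∈ U := by
    have h1 : Tendsto (fun c : ℂ => c • t) (𝓝[≠] 0) (𝓝 0) := by
      have : Tendsto (fun c : ℂ => c • t) (𝓝 0) (𝓝 ((0 : ℂ) • t)) :=
        (continuous_id.smul continuous_const).tendsto _
      rw [zero_smul] at this
      exact this.mono_left nhdsWithin_le_nhds
    have h2 := (h1.eventually hU').and self_mem_nhdsWithin
    obtain ⟨c, hc⟩ := h2.exists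
    exact ⟨c, hc.2, hc.1⟩
  have hmem : (c⁻¹ • PowerSeries.X ^ N : ℂ⟦X⟧) ∈ W := by
    apply hN
    intro i hi
    rw [map_smul, coeff_X_pow, if_neg hi.ne, smul_zero]
  have h3 : m.act (c⁻¹ • PowerSeries.X ^ N) (c • t) ∈ ({x₀}ᶜ : Set V) :=
    hsub (Set.mk_mem_prod hmem hct)
  apply h3
  rw [m.smul_act, m.act_smul, smul_smul, inv_mul_cancel₀ hc0, one_smul, ht]
  rfl

theorem unital_case (hV : IsFrechet V) (m : FrechetModule ℂ⟦X⟧ V) (hu : m.IsUnital)
    (hinj : IsInjectiveUnital m) (x₀ : V) : x₀ = 0 :=
  eq_zero hV m x₀ fun k => exists_div_pow hV m hu hinj k x₀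

end Extension

/-! ### Modules over `A₀` are unital modules over `ℂ⟦z⟧` -/

section Unitization

variable {V : Type u} [AddCommGroup V] [Module ℂ V] [UniformSpace V]

/-- The part of a power series without constant term. -/
noncomputable def red (f : ℂ⟦X⟧) : A₀ :=
  ⟨f - C (constantCoeff f), by
    change constantCoeff (f - C (constantCoeff f)) = 0
    simp⟩

theorem red_add (f g : ℂ⟦X⟧) : red (f + g) = red f + red g := by
  apply Subtype.ext
  change f + g - C (constantCoeff (f + g)) = (f - C (constantCoeff f)) + (g - C (constantCoeff g))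
  rw [map_add, map_add]
  ring

theorem cc_smul (c : ℂ) (f : ℂ⟦X⟧) : constantCoeff (c • f) = c * constantCoeff f := by
  rw [← coeff_zero_eq_constantCoeff_apply, ← coeff_zero_eq_constantCoeff_apply, map_smul,
    smul_eq_mul]

theorem red_smul (c : ℂ) (f : ℂ⟦X⟧) : red (c • f) = c • red f := by
  apply Subtype.ext
  change c • f - C (constantCoeff (c • f)) = c • (f - C (constantCoeff f))
  rw [cc_smul, map_mul, smul_sub]
  rw [smul_eq_C_mul (C (constantCoeff f))]

theorem red_mul (f g : ℂ⟦X⟧) : red (f * g) =
    red f * red g + constantCoeff f • red g + constantCoeff g • red f := by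
  apply Subtype.ext
  change f * g - C (constantCoeff (f * g)) = (f - C (constantCoeff f)) * (g - C (constantCoeff g))
    + constantCoeff f • (g - C (constantCoeff g)) + constantCoeff g • (f - C (constantCoeff f))
  rw [smul_eq_C_mul, smul_eq_C_mul, map_mul, map_mul]
  ring

theorem continuous_red : Continuous red := by
  have h1 : Continuous fun f : ℂ⟦X⟧ => C (constantCoeff f) :=
    (PowerSeries.WithPiTopology.continuous_C).comp
      (PowerSeries.WithPiTopology.continuous_constantCoeff ℂ)
  exact (continuous_id.sub h1).subtype_mk _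

theorem red_one : red 1 = 0 := by
  apply Subtype.ext
  change (1 : ℂ⟦X⟧) - C (constantCoeff 1) = 0
  simp

theorem red_coe (a : A₀) : red (a : ℂ⟦X⟧) = a := by
  apply Subtype.ext
  change (a : ℂ⟦X⟧) - C (constantCoeff (a : ℂ⟦X⟧)) = a
  have : constantCoeff (a : ℂ⟦X⟧) = 0 := a.2
  rw [this]
  simp

/-- The unital module over `ℂ⟦z⟧` defined by a module over `A₀`. -/
noncomputable def up (hV : IsFrechet V) (m : FrechetModule A₀ V) : FrechetModule ℂ⟦X⟧ V where
  act f x := constantCoeff f • x + m.act (red f) x
  add_act f g x := by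
    simp only [map_add, add_smul, red_add, m.add_act]
    abel
  smul_act c f x := by
    simp only [cc_smul, red_smul, m.smul_act, smul_add, smul_smul]
  act_add f x y := by
    simp only [smul_add, m.act_add]
    abel
  act_smul c f x := by
    simp only [m.act_smul, smul_add]
    rw [smul_comm]
  mul_act f g x := by
    simp only [map_mul, red_mul, m.add_act, m.smul_act, m.mul_act, m.act_add, m.act_smul, smul_add,
      smul_smul]
    abel
  continuous_act := by
    have := hV.isUniformAddGroup
    have := hV.continuousSMul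
    exact (((PowerSeries.WithPiTopology.continuous_constantCoeff ℂ).comp continuous_fst).smul
      continuous_snd).add
      (m.continuous_act.comp ((continuous_red.comp continuous_fst).prodMk continuous_snd))

/-- Restriction of a module over `ℂ⟦z⟧` to `A₀`. -/
def down (m : FrechetModule ℂ⟦X⟧ V) : FrechetModule A₀ V where
  act a x := m.act a x
  add_act a b x := m.add_act a b x
  smul_act c a x := m.smul_act c a x
  act_add a x y := m.act_add a x y
  act_smul c a x := m.act_smul c a x
  mul_act a b x := m.mul_act a b x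
  continuous_act := m.continuous_act.comp
    ((continuous_subtype_val.comp continuous_fst).prodMk continuous_snd)

theorem act_eq (m : FrechetModule ℂ⟦X⟧ V) (hu : m.IsUnital) (f : ℂ⟦X⟧) (x : V) :
    m.act f x = constantCoeff f • x + m.act (red f : ℂ⟦X⟧) x := by
  have e : f = constantCoeff f • (1 : ℂ⟦X⟧) + (red f : ℂ⟦X⟧) := by
    change f = constantCoeff f • (1 : ℂ⟦X⟧) + (f - C (constantCoeff f))
    rw [smul_eq_C_mul]
    ring
  conv_lhs => rw [e]
  rw [m.add_act, m.smul_act, hu x]

theorem up_injective (hV : IsFrechet V) (m : FrechetModule A₀ V) (hinj : IsInjective m) :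
    IsInjectiveUnital (up hV m) := by
  intro Y _ _ _ _ mY hY φ hφ hρ
  obtain ⟨ψ, h1, h2⟩ := hinj Y (down mY) φ (fun a x => by
    have := hφ (a : ℂ⟦X⟧) x
    change φ (m.act a x) = mY.act a (φ x)
    rw [← this]
    congr 1
    change m.act a x = constantCoeff (a : ℂ⟦X⟧) • x + m.act (red a) x
    rw [red_coe]
    have : constantCoeff (a : ℂ⟦X⟧) = 0 := a.2
    rw [this, zero_smul, zero_add]) hρ
  refine ⟨ψ, fun f y => ?_, h2⟩
  rw [act_eq mY hY, map_add, map_smul]
  have := h1 (red f) y
  change ψ (mY.act (red f : ℂ⟦X⟧) y) = m.act (red f) (ψ y) at this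
  rw [this]
  rfl

theorem nonunital_case (hV : IsFrechet V) (m : FrechetModule A₀ V) (hinj : IsInjective m)
    (x₀ : V) : x₀ = 0 := by
  refine unital_case hV (up hV m) (fun x => ?_) (up_injective hV m hinj) x₀
  change constantCoeff 1 • x + m.act (red 1) x = x
  have h0 : m.act 0 x = 0 := by
    have := m.smul_act 0 0 x
    simpa using this
  rw [red_one, h0]
  simp

end Unitization

/-- **There are Fréchet algebras without non-zero injective modules.**
(1) The non-unital Fréchet algebra `A₀` of the formal power series without constant term, with the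
topology of coefficientwise convergence, has no non-zero injective Fréchet module.
(2) The unital Fréchet algebra `ℂ⟦z⟧` has no non-zero unital Fréchet module which is injective in
the category of unital Fréchet modules. -/
theorem result :
    (IsFrechetAlgebra A₀ ∧
      ∀ (V : Type u) [AddCommGroup V] [Module ℂ V] [UniformSpace V] [IsFrechet V] [Nontrivial V]
        (m : FrechetModule A₀ V), ¬ IsInjective m) ∧
    (IsFrechetAlgebra ℂ⟦X⟧ ∧
      ∀ (V : Type u) [AddCommGroup V] [Module ℂ V] [UniformSpace V] [IsFrechet V] [Nontrivial V]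
        (m : FrechetModule ℂ⟦X⟧ V), m.IsUnital → ¬ IsInjectiveUnital m) := by
  refine ⟨⟨isFrechetAlgebra_A₀, ?_⟩, isFrechetAlgebra_series, ?_⟩
  · intro V _ _ _ hV _ m hinj
    obtain ⟨x, hx⟩ := exists_ne (0 : V)
    exact hx (nonunital_case hV m hinj x)
  · intro V _ _ _ hV _ m hu hinj
    obtain ⟨x, hx⟩ := exists_ne (0 : V)
    exact hx (unital_case hV m hu hinj x)

end Pool.Agent.Results.MP_5446c4_an.FormalPowerSeries
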